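import Pool.Agent.L0h19.QE.Stm
import Pool.Agent.L0h4.LE.AVG

/-!
# QE.AVQ (helper29): the average of the truncated heights, quadratic exponential sums
(adapted from helper4's LE.AVG)
-/

set_option autoImplicit false

namespace Pool.Agent.L0h29.QE

open Finset Filter Topology
open Pool.Agent.L0h87.LE (ee odds Inv MZ RHO HasOddDensity)
open Pool.Agent.L0h4.LE (norm_ee point)
open Pool.Agent.L0h19.QE

theorem norm_S2_le (f : ℕ → ℝ) (N : ℕ) (α : ℝ) : ‖S2 f N α‖ ≤ ∑ n ∈ odds N, |f n| := by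
  refine (norm_sum_le _ _).trans (Finset.sum_le_sum fun n _ => ?_)
  rw [norm_mul, norm_ee, mul_one, Complex.norm_real, Real.norm_eq_abs]

theorem S2_decomp (f g r : ℕ → ℝ) (t : ℝ) (N : ℕ) (α : ℝ) (hf : ∀ n, f n = g n + t * r n) :
    S2 f N α = S2 g N α + (t : ℂ) * S2 r N α := by
  unfold S2
  rw [Finset.mul_sum, ← Finset.sum_add_distrib]
  refine Finset.sum_congr rfl fun n _ => ?_
  rw [hf n]
  push_cast
  ring

theorem t_AVQ : S_AVQ := by
  intro h δ hFU hd1 hd2 Λ hΛ ε hε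
  obtain ⟨ind, hF, hi⟩ : ∃ ind : ℕ → ℝ, FU2 (fun n => ind n - (1 - δ)) ∧
      ∀ n, (h n = ⊤ → ind n = 1) ∧ (h n ≠ ⊤ → ind n = 0) := by
    refine ⟨_, hFU, fun n => ⟨fun hn => by simp [hn], fun hn => by simp [hn]⟩⟩
  classical
  set c : ℝ := 2 / Real.log (16 / 9) with hc
  have hc0 : 0 < c := div_pos two_pos (Real.log_pos (by norm_num))
  have hΛ0 : 0 < Λ := hc0.trans hΛ
  have hΛc : 0 < Λ - c := by linarith
  set η : ℝ := min (ε / 8) ((Λ - c) / 2) with hη
  have hη0 : 0 < η := lt_min (by positivity) (by positivity)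
  set ρ : ℝ := ε / (4 * Λ) with hρ
  have hρ0 : 0 < ρ := by positivity
  obtain ⟨N₁, hN₁⟩ := hF (ε / (4 * (Λ - c))) (by positivity)
  -- the exceptional integers
  set E : ℕ → Prop := fun m => h m ≠ ⊤ ∧ ¬ ∃ k : ℕ, h m = k ∧ |(k : ℝ) - c * Real.log m| ≤ η * Real.log m with hE
  have hex : ∃ N₂ : ℕ, ∀ N : ℕ, N₂ ≤ N → (((odds N).filter E).card : ℝ) ≤ ε / (4 * Λ) * N := by
    have hd := (hd1.sub (hd2 η hη0)).eventually (gt_mem_nhds (show δ - δ < ε / (2 * Λ) by
      rw [sub_self]; positivity))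
    obtain ⟨N₂, hN₂⟩ := eventually_atTop.1 (hd.and (eventually_ge_atTop 1))
    refine ⟨N₂, fun N hN => ?_⟩
    obtain ⟨h3, h4⟩ := hN₂ N hN
    have hNp : (0 : ℝ) < N := by exact_mod_cast h4
    set A : Set ℕ := {m : ℕ | m ≤ N ∧ Odd m ∧ h m ≠ ⊤} with hA
    set B : Set ℕ := {m : ℕ | m ≤ N ∧ Odd m ∧ ∃ k : ℕ, h m = k ∧ |(k : ℝ) - c * Real.log m| ≤ η * Real.log m} with hB
    have hAf : A.Finite := (Set.finite_Iic N).subset fun m hm => hm.1
    have hBA : B ⊆ A := by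
      rintro m ⟨h5, h6, k, hk, -⟩
      exact ⟨h5, h6, by rw [hk]; exact ENat.natCast_ne_top k⟩
    have hsub : (((odds N).filter E : Finset ℕ) : Set ℕ) ⊆ A \ B := by
      intro m hm
      simp only [coe_filter, odds, mem_filter, mem_Icc, Set.mem_ofPred_eq] at hm
      obtain ⟨⟨⟨h5, h6⟩, h7⟩, h8, h9⟩ := hm
      exact ⟨⟨h6, Nat.odd_iff.2 h7, h8⟩, fun h10 => h9 h10.2.2⟩
    have hcard : ((odds N).filter E).card ≤ A.ncard - B.ncard := by
      rw [← Set.ncard_coe_finset, ← Set.ncard_sdiff hBA (hAf.subset hBA)]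
      exact Set.ncard_le_ncard hsub (hAf.subset Set.sdiff_subset)
    have hBle : B.ncard ≤ A.ncard := Set.ncard_le_ncard hBA hAf
    have hcard' : (((odds N).filter E).card : ℝ) ≤ (A.ncard : ℝ) - B.ncard := by
      rw [← Nat.cast_sub hBle]
      exact_mod_cast hcard
    have h3' : 2 / (N : ℝ) * (A.ncard : ℝ) - 2 / (N : ℝ) * (B.ncard : ℝ) < ε / (2 * Λ) := h3
    rw [← mul_sub] at h3'
    refine hcard'.trans ?_
    have h5 : (A.ncard : ℝ) - B.ncard = (2 / (N : ℝ) * ((A.ncard : ℝ) - B.ncard)) * (N / 2) := by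
      field_simp
    rw [h5]
    have h6 : ε / (4 * Λ) * N = ε / (2 * Λ) * (N / 2) := by ring
    rw [h6]
    exact mul_le_mul_of_nonneg_right h3'.le (by positivity)
  obtain ⟨N₂, hN₂⟩ := hex
  -- large `log N`
  have hlog : Tendsto (fun N : ℕ => Real.log (N : ℝ)) atTop atTop :=
    Real.tendsto_log_atTop.comp tendsto_natCast_atTop_atTop
  obtain ⟨N₃, hN₃⟩ := eventually_atTop.1 (hlog.eventually_ge_atTop
    (max 1 (max (4 / ε) (8 / ε * ((c + η) * |Real.log ρ|)))))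
  refine ⟨max N₁ (max N₂ N₃), fun N hN α => ?_⟩
  have g1 : N₁ ≤ N := (le_max_left _ _).trans hN
  have g2 : N₂ ≤ N := ((le_max_left _ _).trans (le_max_right _ _)).trans hN
  have g3 : N₃ ≤ N := ((le_max_right _ _).trans (le_max_right _ _)).trans hN
  have hL := hN₃ N g3
  set L : ℝ := Real.log N with hLdef
  have hL1 : 1 ≤ L := (le_max_left _ _).trans hL
  have hL2 : 4 / ε ≤ L := ((le_max_left _ _).trans (le_max_right _ _)).trans hL
  have hL3 : 8 / ε * ((c + η) * |Real.log ρ|) ≤ L := ((le_max_right _ _).trans (le_max_right _ _)).trans hL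
  have k1 : 1 ≤ ε / 4 * L := by
    rw [div_le_iff₀ hε] at hL2
    linarith
  have k2 : (c + η) * |Real.log ρ| ≤ ε / 8 * L := by
    have h3 : (c + η) * |Real.log ρ| = ε / 8 * (8 / ε * ((c + η) * |Real.log ρ|)) := by
      field_simp
    rw [h3]
    exact mul_le_mul_of_nonneg_left hL3 (by positivity)
  have hdec := S2_decomp (fun m => ((min (h m) (⌊Λ * L⌋₊ : ℕ∞)).toNat : ℝ) / L - (δ * c + (1 - δ) * Λ))
    (fun m => ((min (h m) (⌊Λ * L⌋₊ : ℕ∞)).toNat : ℝ) / L - (c + (Λ - c) * ind m))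
    (fun m => ind m - (1 - δ)) (Λ - c) N α (fun n => by ring)
  rw [hdec]
  refine (norm_add_le _ _).trans ?_
  have m2 : ‖((Λ - c : ℝ) : ℂ) * S2 (fun m => ind m - (1 - δ)) N α‖ ≤ ε / 4 * N := by
    rw [norm_mul, Complex.norm_real, Real.norm_eq_abs, abs_of_pos hΛc]
    refine (mul_le_mul_of_nonneg_left (hN₁ N g1 α) hΛc.le).trans (le_of_eq ?_)
    field_simp
  have m1 : ‖S2 (fun m => ((min (h m) (⌊Λ * L⌋₊ : ℕ∞)).toNat : ℝ) / L - (c + (Λ - c) * ind m)) N α‖ ≤
      3 * (ε / 4) * N := by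
    refine (norm_S2_le _ _ _).trans ?_
    have hsum : ∑ n ∈ odds N, |((min (h n) (⌊Λ * L⌋₊ : ℕ∞)).toNat : ℝ) / L - (c + (Λ - c) * ind n)| ≤
        ∑ n ∈ odds N, (ε / 4 + (if (n : ℝ) ≤ ρ * N then Λ else 0) + (if E n then Λ else 0)) := by
      refine Finset.sum_le_sum fun n hn => ?_
      have hn' := mem_Icc.1 (mem_filter.1 hn).1
      refine point (h n) Λ c η ρ ε L N n hc0 hΛ hLdef (by linarith) hρ0 hη0 (min_le_left _ _) (min_le_right _ _)
        k1 k2 hn'.1 hn'.2 (E n) ?_ (ind n) (hi n).1 (hi n).2 _ _ ?_ ?_ ?_ ?_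
      · intro h5 h6
        by_contra h7
        exact h5 ⟨h6, h7⟩
      · split_ifs <;> linarith
      · split_ifs <;> linarith
      · intro h5; rw [if_pos h5]
      · intro h5; rw [if_pos h5]
    refine hsum.trans ?_
    rw [Finset.sum_add_distrib, Finset.sum_add_distrib, Finset.sum_const, ← Finset.sum_filter, ← Finset.sum_filter,
      Finset.sum_const, Finset.sum_const, nsmul_eq_mul, nsmul_eq_mul, nsmul_eq_mul]
    have c1 : ((odds N).card : ℝ) ≤ N := by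
      have : (odds N).card ≤ N := (Finset.card_filter_le _ _).trans (by simp)
      exact_mod_cast this
    have c2 : (((odds N).filter (fun n : ℕ => (n : ℝ) ≤ ρ * N)).card : ℝ) ≤ ρ * N := by
      have h5 : (odds N).filter (fun n : ℕ => (n : ℝ) ≤ ρ * N) ⊆ Icc 1 ⌊ρ * N⌋₊ := by
        intro n hn
        obtain ⟨h6, h7⟩ := mem_filter.1 hn
        exact mem_Icc.2 ⟨(mem_Icc.1 (mem_filter.1 h6).1).1, Nat.le_floor h7⟩
      have h6 := Finset.card_le_card h5
      rw [Nat.card_Icc, Nat.add_sub_cancel] at h6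
      exact (Nat.cast_le.2 h6).trans (Nat.floor_le (by positivity))
    have c3 := hN₂ N g2
    have d1 : ((odds N).card : ℝ) * (ε / 4) ≤ N * (ε / 4) := mul_le_mul_of_nonneg_right c1 (by positivity)
    have d2 : (((odds N).filter (fun n : ℕ => (n : ℝ) ≤ ρ * N)).card : ℝ) * Λ ≤ ε / 4 * N := by
      refine (mul_le_mul_of_nonneg_right c2 hΛ0.le).trans (le_of_eq ?_)
      rw [hρ]; field_simp
    have d3 : (((odds N).filter E).card : ℝ) * Λ ≤ ε / 4 * N := by
      refine (mul_le_mul_of_nonneg_right c3 hΛ0.le).trans (le_of_eq ?_)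
      field_simp
    linarith
  linarith

end Pool.Agent.L0h29.QE
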